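import Pool.Agent.TH858.GP.Dense

/-!
# Bogolyubov's theorem in `ℤ/N` and for one digit
-/

set_option autoImplicit false

namespace Pool.Agent.Q47.DP

open Finset Pool.Agent.TH858
open scoped Pointwise

/-- Bogolyubov's theorem in `ℤ/N`. -/
lemma bog1 {N : ℕ} [NeZero N] (A : Finset (ZMod N)) (β : ℝ) (hβ : 0 < β) (hA : β * N ≤ A.card) :
    ∃ Γ : Finset (ZMod N), (Γ.card : ℝ) ≤ 4 / β ^ 2 ∧
      ∀ x : ZMod N, (∀ γ ∈ Γ, CB.nn (γ * x) ≤ 1 / 8) →
        ∃ a ∈ A, ∃ b ∈ A, ∃ c ∈ A, ∃ d ∈ A, x = a + b - c - d := by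
  classical
  have hNpos : (0 : ℝ) < N := Nat.cast_pos.mpr (NeZero.pos N)
  have hAp : (0 : ℝ) < A.card := lt_of_lt_of_le (by positivity) hA
  have hAne : A.Nonempty := by
    rw [← card_pos]; exact_mod_cast hAp
  have hE : β * (A.card * (A.card : ℝ) ^ 2) ≤ GP.quad A A 0 := by
    have h1 := GP.energy A A
    have h2 : ((A + A).card : ℝ) ≤ N := by
      have := Finset.card_le_univ (A + A)
      rw [ZMod.card] at this
      exact_mod_cast this
    have h3 : (0 : ℝ) ≤ GP.quad A A 0 := Nat.cast_nonneg _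
    have h4 : ((A.card : ℝ) * A.card) ^ 2 ≤ N * GP.quad A A 0 := h1.trans (mul_le_mul_of_nonneg_right h2 h3)
    have h5 : N * (β * (A.card * (A.card : ℝ) ^ 2)) ≤ N * GP.quad A A 0 := by
      calc N * (β * (A.card * (A.card : ℝ) ^ 2)) = (β * N) * (A.card : ℝ) ^ 3 := by ring
        _ ≤ A.card * (A.card : ℝ) ^ 3 := mul_le_mul_of_nonneg_right hA (by positivity)
        _ = ((A.card : ℝ) * A.card) ^ 2 := by ring
        _ ≤ _ := h4
    exact le_of_mul_le_mul_left h5 hNpos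
  obtain ⟨S, hS⟩ : ∃ S : Finset (ZMod N), S = univ.filter fun g => β / 4 * (A.card : ℝ) ^ 2 ≤ GP.wt A g := ⟨_, rfl⟩
  refine ⟨S, ?_, ?_⟩
  · have h1 : (S.card : ℝ) * (β / 4 * (A.card : ℝ) ^ 2) ≤ N * A.card := by
      rw [← GP.sum_wt A, ← nsmul_eq_mul, ← sum_const]
      calc ∑ _g ∈ S, (β / 4 * (A.card : ℝ) ^ 2) ≤ ∑ g ∈ S, GP.wt A g := sum_le_sum fun g hg => by
            rw [hS, mem_filter] at hg; exact hg.2
        _ ≤ ∑ g, GP.wt A g := sum_le_sum_of_subset_of_nonneg (subset_univ _) fun g _ _ => GP.wt_nonneg _ _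
    rw [le_div_iff₀ (by positivity)]
    have h2 : (S.card : ℝ) * (β / 4 * A.card) ≤ N := by
      have : (S.card : ℝ) * (β / 4 * A.card) * A.card ≤ N * A.card := by
        calc _ = (S.card : ℝ) * (β / 4 * (A.card : ℝ) ^ 2) := by ring
          _ ≤ _ := h1
      exact le_of_mul_le_mul_right this hAp
    have h3 : (S.card : ℝ) * (β / 4 * (β * N)) ≤ N :=
      le_trans (mul_le_mul_of_nonneg_left (mul_le_mul_of_nonneg_left hA (by positivity)) (Nat.cast_nonneg _)) h2
    have h4 : (S.card : ℝ) * β ^ 2 / 4 * N ≤ 1 * N := by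
      calc _ = (S.card : ℝ) * (β / 4 * (β * N)) := by ring
        _ ≤ 1 * N := by rw [one_mul]; exact h3
    have := le_of_mul_le_mul_right h4 hNpos
    linarith
  · intro x hx
    have h := GP.bogo A A β hβ hAne hAne hE x (fun g hg => by
      apply GP.re_ge_half
      have h1 := hx g (by rw [hS, mem_filter]; exact ⟨mem_univ _, hg⟩)
      have h2 := GP.norm_ψ_sub_one_le (g * x)
      have h3 : 2 * Real.pi * CB.nn (g * x) ≤ 1 := by
        have hpi := Real.pi_le_four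
        have hpi0 := Real.pi_pos
        calc 2 * Real.pi * CB.nn (g * x) ≤ 2 * Real.pi * (1 / 8) := mul_le_mul_of_nonneg_left h1 (by positivity)
          _ ≤ 1 := by linarith
      exact h2.trans h3)
    exact GP.mem_of_quad A A x h

/-- Bogolyubov's theorem for one digit, in the integers. -/
lemma digit (g : ℕ) (hg : 0 < g) (D : Finset ℕ) (hD : D ⊆ range g) (δ : ℝ) (hδ : 0 < δ)
    (hc : δ * g ≤ D.card) :
    ∃ G : Finset ℤ, (G.card : ℝ) ≤ 64 / δ ^ 2 ∧ (∀ γ ∈ G, 2 * |γ| ≤ g) ∧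
      ∀ n : ℤ, 2 * |n| ≤ g → (∀ γ ∈ G, CB.nint ((γ : ℝ) * n / g) ≤ 1 / 8) →
        ∃ a ∈ D, ∃ b ∈ D, ∃ c ∈ D, ∃ d ∈ D, n = (a : ℤ) + b - c - d := by
  classical
  have : NeZero g := ⟨hg.ne'⟩
  obtain ⟨L, hL⟩ : ∃ L, L = (g + 3) / 4 := ⟨_, rfl⟩
  have hL1 : g ≤ 4 * L := by omega
  have hL2 : 4 * L ≤ g + 3 := by omega
  have hL0 : 0 < L := by omega
  obtain ⟨j, hj⟩ : ∃ j, D.card ≤ 4 * (D.filter fun x => x / L = j).card := by
    by_contra hcon
    push Not at hcon
    have hmaps : ∀ x ∈ D, x / L ∈ range 4 := by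
      intro x hx
      have := mem_range.mp (hD hx)
      rw [mem_range, Nat.div_lt_iff_lt_mul hL0]
      omega
    have h1 := Finset.card_eq_sum_card_fiberwise (f := fun x => x / L) (s := D) (t := range 4) hmaps
    rw [sum_range_succ, sum_range_succ, sum_range_succ, sum_range_one] at h1
    have c0 := hcon 0
    have c1 := hcon 1
    have c2 := hcon 2
    have c3 := hcon 3
    omega
  obtain ⟨D', hD'⟩ : ∃ D', D' = D.filter fun x => x / L = j := ⟨_, rfl⟩
  rw [← hD'] at hj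
  have hsub : D' ⊆ D := by rw [hD']; exact filter_subset _ _
  obtain ⟨B, hB⟩ : ∃ B : Finset (ZMod g), B = D'.image fun x : ℕ => (x : ZMod g) := ⟨_, rfl⟩
  have hcard : B.card = D'.card := by
    rw [hB]
    apply card_image_of_injOn
    intro x hx y hy hxy
    have hx' := mem_range.mp (hD (hsub hx))
    have hy' := mem_range.mp (hD (hsub hy))
    simp only at hxy
    rw [ZMod.natCast_eq_natCast_iff', Nat.mod_eq_of_lt hx', Nat.mod_eq_of_lt hy'] at hxy
    exact hxy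
  have hβ : δ / 4 * g ≤ B.card := by
    rw [hcard]
    have : (D.card : ℝ) ≤ 4 * D'.card := by exact_mod_cast hj
    linarith
  obtain ⟨Γ, hΓ1, hΓ2⟩ := bog1 B (δ / 4) (by positivity) hβ
  refine ⟨Γ.image ZMod.valMinAbs, ?_, ?_, ?_⟩
  · have h1 : ((Γ.image ZMod.valMinAbs).card : ℝ) ≤ Γ.card := by exact_mod_cast card_image_le
    refine h1.trans (hΓ1.trans (le_of_eq ?_))
    field_simp
    norm_num
  · intro γ hγ
    rw [mem_image] at hγ
    obtain ⟨c, _, rfl⟩ := hγ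
    have := ZMod.natAbs_valMinAbs_le c
    rw [Int.abs_eq_natAbs]
    omega
  · intro n hn hcond
    obtain ⟨a, ha, b, hb, c, hc', d, hd, hx⟩ := hΓ2 (n : ZMod g) (fun γ hγ => by
      have h1 := hcond γ.valMinAbs (mem_image_of_mem _ hγ)
      have h2 : CB.nint (((γ.valMinAbs * n : ℤ) : ℝ) / g) = CB.nn (γ * (n : ZMod g)) := by
        apply CB.nint_eq_nn
        rw [Int.cast_mul, ZMod.coe_valMinAbs]
      rw [← h2]
      push_cast
      exact h1)
    rw [hB, mem_image] at ha hb hc' hd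
    obtain ⟨a, ha, rfl⟩ := ha
    obtain ⟨b, hb, rfl⟩ := hb
    obtain ⟨c, hc', rfl⟩ := hc'
    obtain ⟨d, hd, rfl⟩ := hd
    refine ⟨a, hsub ha, b, hsub hb, c, hsub hc', d, hsub hd, ?_⟩
    have hdvd : (g : ℤ) ∣ n - ((a : ℤ) + b - c - d) := by
      rw [← ZMod.intCast_zmod_eq_zero_iff_dvd]
      push_cast
      rw [hx]
      ring
    have hlt : |n - ((a : ℤ) + b - c - d)| < g := by
      rw [hD', mem_filter] at ha hb hc' hd
      have ea := Nat.div_add_mod a L
      have eb := Nat.div_add_mod b L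
      have ec := Nat.div_add_mod c L
      have ed := Nat.div_add_mod d L
      rw [ha.2] at ea
      rw [hb.2] at eb
      rw [hc'.2] at ec
      rw [hd.2] at ed
      have la := Nat.mod_lt a hL0
      have lb := Nat.mod_lt b hL0
      have lc := Nat.mod_lt c hL0
      have ld := Nat.mod_lt d hL0
      rw [abs_lt]
      have hn' := abs_le.mp (show |n| ≤ |n| from le_rfl)
      constructor <;> omega
    have := Int.eq_zero_of_abs_lt_dvd hdvd hlt
    omega

/-- Splitting off the top digit. -/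
lemma split (M g : ℤ) (hM : 0 < M) (y : ℤ) (hy : 2 * |y| ≤ M * g) :
    ∃ n r : ℤ, y = n * M + r ∧ 2 * |r| ≤ M ∧ 2 * |n| ≤ g := by
  have key : ∀ y : ℤ, 0 ≤ y → 2 * y ≤ M * g → ∃ n r : ℤ, y = n * M + r ∧ 2 * |r| ≤ M ∧ 2 * |n| ≤ g := by
    intro y hy0 hy
    obtain ⟨q, hq⟩ : ∃ q, q = (M - 2 * y) / (2 * M) := ⟨_, rfl⟩
    obtain ⟨s, hs⟩ : ∃ s, s = (M - 2 * y) % (2 * M) := ⟨_, rfl⟩
    have h1 : 2 * M * q + s = M - 2 * y := by rw [hq, hs]; exact Int.mul_ediv_add_emod _ _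
    have h2 : 0 ≤ s := by rw [hs]; exact Int.emod_nonneg _ (by omega)
    have h3 : s < 2 * M := by rw [hs]; exact Int.emod_lt_of_pos _ (by omega)
    have h4 : 2 * (y + q * M) = M - s := by linear_combination h1
    refine ⟨-q, y + q * M, by ring, ?_, ?_⟩
    · rcases abs_cases (y + q * M) with ⟨h, _⟩ | ⟨h, _⟩ <;> rw [h] <;> linarith
    · have h5 : q ≤ 0 := by
        by_contra hcon
        have : 1 ≤ q := by omega
        nlinarith
      have h6 : -g ≤ 2 * q := by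
        by_contra hcon
        have : 2 * q ≤ -g - 1 := by omega
        have : M * (2 * q) ≤ M * (-g - 1) := mul_le_mul_of_nonneg_left this hM.le
        nlinarith
      rw [abs_neg, abs_of_nonpos h5]
      linarith
  rcases le_total 0 y with h | h
  · rw [abs_of_nonneg h] at hy
    exact key y h hy
  · rw [abs_of_nonpos h] at hy
    obtain ⟨n, r, e1, e2, e3⟩ := key (-y) (by omega) hy
    refine ⟨-n, -r, by linear_combination -e1, ?_, ?_⟩
    · rw [abs_neg]; exact e2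
    · rw [abs_neg]; exact e3

lemma abs_le_nint (x : ℝ) (hx : |x| ≤ 1 / 2) : |x| ≤ CB.nint x := by
  unfold CB.nint
  by_cases h : round x = 0
  · rw [h]; simp
  · have h1 : (1 : ℝ) ≤ |((round x : ℤ) : ℝ)| := by
      exact_mod_cast Int.one_le_abs h
    have h2 := abs_sub_abs_le_abs_sub ((round x : ℤ) : ℝ) x
    rw [abs_sub_comm] at h2
    linarith

/-- If all the numbers `2 ^ j θ`, `j ≤ J`, are close to integers then `θ` is small. -/
lemma doubling (ρ : ℝ) (hρ : ρ ≤ 1 / 4) (θ : ℝ) (hθ : |θ| ≤ 1 / 2) (J : ℕ)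
    (h : ∀ j ≤ J, CB.nint (2 ^ j * θ) ≤ ρ) : 2 ^ J * |θ| ≤ ρ := by
  induction J with
  | zero =>
    have h1 := h 0 le_rfl
    rw [pow_zero, one_mul] at h1
    rw [pow_zero, one_mul]
    exact (abs_le_nint θ hθ).trans h1
  | succ J ih =>
    have h1 := ih fun j hj => h j (by omega)
    have h2 : |2 ^ (J + 1) * θ| = 2 ^ (J + 1) * |θ| := by
      rw [abs_mul, abs_of_pos (by positivity)]
    have h3 : |2 ^ (J + 1) * θ| ≤ 1 / 2 := by
      rw [h2, pow_succ]
      linarith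
    have h4 := abs_le_nint _ h3
    rw [h2] at h4
    exact h4.trans (h (J + 1) le_rfl)

end Pool.Agent.Q47.DP
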