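import Pool.Agent.Q47.DP.Bog
import Pool.Agent.Q285.SD.Main

/-!
# Digit product sets with digit sets of small doubling
-/

set_option autoImplicit false

namespace Pool.Agent.Q47.DP2

open Finset Pool.Agent.TH858 Pool.Agent.Q47.DP
open scoped Pointwise

/-- The digit sets of doubling at most `κ` satisfy the conclusion of Q1 with the constants `C₁`, `c₁`. -/
def DigitProp (κ C₁ c₁ : ℝ) : Prop :=
  ∀ g : ℕ, 2 ≤ g → ∀ D : Finset ℕ, D ⊆ range g → D.Nonempty → ((D + D).card : ℝ) ≤ κ * D.card →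
    ∃ G : Finset ℤ, (G.card : ℝ) ≤ C₁ * (1 + Real.log (g / D.card)) ∧ (∀ γ ∈ G, 2 * |γ| ≤ g) ∧
      ∀ n : ℤ, 2 * |n| ≤ g → (∀ γ ∈ G, CB.nint ((γ : ℝ) * n / g) ≤ c₁ / (1 + Real.log (g / D.card))) →
        ∃ a ∈ D, ∃ b ∈ D, ∃ c ∈ D, ∃ d ∈ D, n = (a : ℤ) + b - c - d

theorem digit2 (κ : ℝ) : ∃ C₁ c₁ : ℝ, 0 < C₁ ∧ 0 < c₁ ∧ DigitProp κ C₁ c₁ := by
  classical
  obtain ⟨C, c₀, hC, hc₀, hmain⟩ := Q285.SD.Main.small_doubling
  obtain ⟨F, hF⟩ : ∃ F : ℝ, F = |Q285.SD.Main.F (4 * κ)| := ⟨_, rfl⟩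
  have hF0 : 0 ≤ F := by rw [hF]; exact abs_nonneg _
  have hFle : Q285.SD.Main.F (4 * κ) ≤ F := by rw [hF]; exact le_abs_self _
  refine ⟨C * (2 + F), c₀ / (2 + F), by positivity, by positivity, ?_⟩
  intro g hg2 D hD hne hdoub
  have hg : 0 < g := by omega
  have : NeZero g := ⟨hg.ne'⟩
  have hgpos : (0 : ℝ) < g := by exact_mod_cast hg
  have hDpos : (0 : ℝ) < D.card := by exact_mod_cast hne.card_pos
  have hκ0 : 0 < κ := by
    have h1 : 0 < (D + D).card := by
      rw [card_pos]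
      exact hne.add hne
    have h2 : (0 : ℝ) < (D + D).card := by exact_mod_cast h1
    by_contra hcon
    have : κ * (D.card : ℝ) ≤ 0 := mul_nonpos_of_nonpos_of_nonneg (by linarith) hDpos.le
    linarith
  have hDle : D.card ≤ g := by
    have := card_le_card hD
    rwa [card_range] at this
  have hlogD : 0 ≤ Real.log (g / D.card) := by
    apply Real.log_nonneg
    rw [le_div_iff₀ hDpos, one_mul]
    exact_mod_cast hDle
  obtain ⟨L, hL⟩ : ∃ L, L = (g + 3) / 4 := ⟨_, rfl⟩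
  have hL1 : g ≤ 4 * L := by omega
  have hL2 : 4 * L ≤ g + 3 := by omega
  have hL0 : 0 < L := by omega
  obtain ⟨j, hj⟩ : ∃ j, D.card ≤ 4 * (D.filter fun x => x / L = j).card := by
    by_contra hcon
    push Not at hcon
    have hmaps : ∀ x ∈ D, x / L ∈ range 4 := by
      intro x hx
      have := mem_range.mp (hD hx)
      rw [mem_range, Nat.div_lt_iff_lt_mul hL0]
      omega
    have h1 := Finset.card_eq_sum_card_fiberwise (f := fun x => x / L) (s := D) (t := range 4) hmaps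
    rw [sum_range_succ, sum_range_succ, sum_range_succ, sum_range_one] at h1
    have c0 := hcon 0
    have c1 := hcon 1
    have c2 := hcon 2
    have c3 := hcon 3
    omega
  obtain ⟨D', hD'⟩ : ∃ D', D' = D.filter fun x => x / L = j := ⟨_, rfl⟩
  rw [← hD'] at hj
  have hsub : D' ⊆ D := by rw [hD']; exact filter_subset _ _
  have hD'pos : 0 < D'.card := by
    have := hne.card_pos
    omega
  have hD'L : D'.card ≤ L := by
    have h1 : D' ⊆ Ico (L * j) (L * j + L) := by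
      intro x hx
      rw [hD', mem_filter] at hx
      have e1 := Nat.div_add_mod x L
      rw [hx.2] at e1
      have e2 := Nat.mod_lt x hL0
      rw [mem_Ico]
      omega
    have h2 := card_le_card h1
    rw [Nat.card_Ico] at h2
    omega
  obtain ⟨B, hB⟩ : ∃ B : Finset (ZMod g), B = D'.image (Nat.castAddMonoidHom (ZMod g)) := ⟨_, rfl⟩
  have hcard : B.card = D'.card := by
    rw [hB]
    apply card_image_of_injOn
    intro x hx y hy hxy
    have hx' := mem_range.mp (hD (hsub hx))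
    have hy' := mem_range.mp (hD (hsub hy))
    simp only [Nat.coe_castAddMonoidHom] at hxy
    rw [ZMod.natCast_eq_natCast_iff', Nat.mod_eq_of_lt hx', Nat.mod_eq_of_lt hy'] at hxy
    exact hxy
  have hBne : B.Nonempty := by rw [← card_pos, hcard]; exact hD'pos
  have hBpos : (0 : ℝ) < B.card := by exact_mod_cast hBne.card_pos
  have h4 : (D.card : ℝ) ≤ 4 * B.card := by rw [hcard]; exact_mod_cast hj
  have hBhalf : (B.card : ℝ) / (g : ℝ) ≤ 1 / 2 := by
    rw [div_le_iff₀ hgpos, hcard]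
    have : 2 * D'.card ≤ g := by omega
    have : (2 : ℝ) * D'.card ≤ g := by exact_mod_cast this
    linarith
  have hBB : ((B + B).card : ℝ) ≤ 4 * κ * B.card := by
    have h1 : (B + B).card ≤ (D + D).card := by
      rw [hB, ← Finset.image_add]
      exact card_image_le.trans (card_le_card (add_subset_add hsub hsub))
    have h2 : ((B + B).card : ℝ) ≤ (D + D).card := by exact_mod_cast h1
    calc ((B + B).card : ℝ) ≤ (D + D).card := h2
      _ ≤ κ * D.card := hdoub
      _ ≤ κ * (4 * B.card) := mul_le_mul_of_nonneg_left h4 hκ0.le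
      _ = 4 * κ * B.card := by ring
  obtain ⟨Γ, ε, hε, hΓ1, hε2, hΓ2⟩ := hmain g hg B hBne hBhalf (4 * κ) hBB
  have hlB : Real.log ((g : ℝ) / B.card) ≤ 2 + Real.log (g / D.card) := by
    have h1 : Real.log ((g : ℝ) / B.card) ≤ Real.log (4 * (g / D.card)) := by
      apply Real.log_le_log (by positivity)
      rw [div_le_iff₀ hBpos, mul_div_assoc', div_mul_eq_mul_div, le_div_iff₀ hDpos]
      nlinarith
    rw [Real.log_mul (by norm_num) (by positivity)] at h1
    have h2 : Real.log 4 ≤ 2 := by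
      rw [show (4 : ℝ) = 2 ^ 2 by norm_num, Real.log_pow]
      have := Real.log_two_lt_d9
      push_cast
      linarith
    linarith
  have hlB0 : 0 ≤ Real.log ((g : ℝ) / B.card) := by
    apply Real.log_nonneg
    rw [le_div_iff₀ hBpos, one_mul, hcard]
    have : D'.card ≤ g := by omega
    exact_mod_cast this
  have hFpos : 0 < Q285.SD.Main.F (4 * κ) := by
    unfold Q285.SD.Main.F
    exact Real.rpow_pos_of_pos (by linarith) _
  have hkey : Real.log ((g : ℝ) / B.card) + Q285.SD.Main.F (4 * κ) ≤ (2 + F) * (1 + Real.log (g / D.card)) := by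
    nlinarith [mul_nonneg hF0 hlogD]
  refine ⟨Γ.image ZMod.valMinAbs, ?_, ?_, ?_⟩
  · have h1 : ((Γ.image ZMod.valMinAbs).card : ℝ) ≤ Γ.card := by exact_mod_cast card_image_le
    calc _ ≤ (Γ.card : ℝ) := h1
      _ ≤ C * (Real.log ((g : ℝ) / B.card) + Q285.SD.Main.F (4 * κ)) := hΓ1
      _ ≤ C * ((2 + F) * (1 + Real.log (g / D.card))) := mul_le_mul_of_nonneg_left hkey hC.le
      _ = _ := by ring
  · intro γ hγ
    rw [mem_image] at hγ
    obtain ⟨c, _, rfl⟩ := hγ
    have := ZMod.natAbs_valMinAbs_le c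
    rw [Int.abs_eq_natAbs]
    omega
  · intro n hn hcond
    have hεle : c₀ / (2 + F) / (1 + Real.log (g / D.card)) ≤ ε := by
      refine le_trans ?_ hε2
      rw [div_div]
      exact div_le_div_of_nonneg_left hc₀.le (by linarith) hkey
    obtain ⟨a, ha, b, hb, c, hc', d, hd, hx⟩ := hΓ2 (show (n : ZMod g) ∈ Q285.SD.Main.bohr Γ ε from fun γ hγ => by
      have h1 := hcond γ.valMinAbs (mem_image_of_mem _ hγ)
      have h2 : CB.nint (((γ.valMinAbs * n : ℤ) : ℝ) / g) = CB.nn (γ * (n : ZMod g)) := by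
        apply CB.nint_eq_nn
        rw [Int.cast_mul, ZMod.coe_valMinAbs]
      have h3 : CB.nn (γ * (n : ZMod g)) ≤ ε := by
        rw [← h2]
        push_cast
        exact h1.trans hεle
      exact h3)
    rw [hB, mem_image] at ha hb hc' hd
    obtain ⟨a, ha, rfl⟩ := ha
    obtain ⟨b, hb, rfl⟩ := hb
    obtain ⟨c, hc', rfl⟩ := hc'
    obtain ⟨d, hd, rfl⟩ := hd
    refine ⟨a, hsub ha, b, hsub hb, c, hsub hc', d, hsub hd, ?_⟩
    simp only [Nat.coe_castAddMonoidHom] at hx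
    have hdvd : (g : ℤ) ∣ n - ((a : ℤ) + b - c - d) := by
      rw [← ZMod.intCast_zmod_eq_zero_iff_dvd]
      push_cast
      rw [hx]
      ring
    have hlt : |n - ((a : ℤ) + b - c - d)| < g := by
      rw [hD', mem_filter] at ha hb hc' hd
      have ea := Nat.div_add_mod a L
      have eb := Nat.div_add_mod b L
      have ec := Nat.div_add_mod c L
      have ed := Nat.div_add_mod d L
      rw [ha.2] at ea
      rw [hb.2] at eb
      rw [hc'.2] at ec
      rw [hd.2] at ed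
      have la := Nat.mod_lt a hL0
      have lb := Nat.mod_lt b hL0
      have lc := Nat.mod_lt c hL0
      have ld := Nat.mod_lt d hL0
      rw [abs_lt]
      have hn' := abs_le.mp (show |n| ≤ |n| from le_rfl)
      constructor <;> omega
    have := Int.eq_zero_of_abs_lt_dvd hdvd hlt
    omega

/-- The constant of the main theorem. -/
noncomputable def CC (δ C₁ : ℝ) : ℝ := ((1 + C₁) / Real.log (4 / 3) + C₁) + 3 / (δ * Real.log 2)

lemma CC_pos (δ C₁ : ℝ) (hδ : 0 < δ) (hC₁ : 0 < C₁) : 0 < CC δ C₁ := by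
  unfold CC
  have h1 : 0 < Real.log (4 / 3) := Real.log_pos (by norm_num)
  have h2 : 0 < Real.log 2 := Real.log_pos (by norm_num)
  positivity

/-- One digit: the numbers `θ` that are needed for the digit `g`, `D` in front of `M`. -/
lemma step (κ C₁ c₁ : ℝ) (hC₁ : 0 < C₁) (hH : DigitProp κ C₁ c₁) (ρ : ℝ) (hρ0 : 0 < ρ) (hρ : ρ ≤ 1 / 16)
    (g : ℕ) (hg : 2 ≤ g) (D : Finset ℕ) (hD : D ⊆ range g) (δ : ℝ) (hδ : 0 < δ) (hne : D.Nonempty)
    (hc : (((D + D).card : ℝ) ≤ κ * D.card ∧ 3 / 2 * ρ * (1 + Real.log (g / D.card)) ≤ c₁) ∨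
      (D.card : ℝ) ≤ (g : ℝ) ^ (1 - δ)) (M : ℕ) (hM : 0 < M) :
    ∃ Θ : Finset ℝ, (Θ.card : ℝ) ≤ CC δ C₁ * Real.log (g / D.card) ∧
      (∀ θ ∈ Θ, ∃ m : ℤ, θ * ((M : ℝ) * g) = m) ∧
      ∀ n r : ℤ, 2 * |n * M + r| ≤ M * g → 2 * |n| ≤ g → 2 * |r| ≤ M →
        (∀ θ ∈ Θ, CB.nint (θ * ((n : ℝ) * M + r)) ≤ ρ) →
        ∃ a ∈ D, ∃ b ∈ D, ∃ c ∈ D, ∃ d ∈ D, n = (a : ℤ) + b - c - d := by
  classical
  have hg0 : 0 < g := by omega
  have hgpos : (0 : ℝ) < g := by exact_mod_cast hg0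
  have hMpos : (0 : ℝ) < M := by exact_mod_cast hM
  have hDpos : (0 : ℝ) < D.card := by exact_mod_cast hne.card_pos
  have hDle : D.card ≤ g := by
    have := card_le_card hD
    rwa [card_range] at this
  have hlog43 : 0 < Real.log (4 / 3) := Real.log_pos (by norm_num)
  have hlog2 : 0 < Real.log 2 := Real.log_pos (by norm_num)
  have hlogD : 0 ≤ Real.log (g / D.card) := by
    apply Real.log_nonneg
    rw [le_div_iff₀ hDpos, one_mul]
    exact_mod_cast hDle
  by_cases h : 3 * g < 4 * D.card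
  · refine ⟨∅, ?_, by simp, ?_⟩
    · rw [card_empty, Nat.cast_zero]
      exact mul_nonneg (CC_pos δ C₁ hδ hC₁).le hlogD
    · intro n r _ hn _ _
      obtain ⟨D₁, hD₁⟩ : ∃ D₁ : Finset ℤ, D₁ = D.image fun x : ℕ => (x : ℤ) := ⟨_, rfl⟩
      obtain ⟨D₂, hD₂⟩ : ∃ D₂ : Finset ℤ, D₂ = D.image fun x : ℕ => (x : ℤ) + n := ⟨_, rfl⟩
      have c1 : D₁.card = D.card := by
        rw [hD₁]
        apply card_image_of_injective
        intro x y hxy
        simp only [Nat.cast_inj] at hxy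
        exact hxy
      have c2 : D₂.card = D.card := by
        rw [hD₂]
        apply card_image_of_injective
        intro x y hxy
        simp only [add_left_inj, Nat.cast_inj] at hxy
        exact hxy
      have hnd : ¬ Disjoint D₁ D₂ := by
        intro hdis
        have h1 := card_union_of_disjoint hdis
        have h2 : D₁ ∪ D₂ ⊆ Ico (min 0 n) (g + max 0 n) := by
          intro z hz
          rw [mem_union, hD₁, hD₂, mem_image, mem_image] at hz
          rw [mem_Ico]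
          rcases hz with ⟨x, hx, rfl⟩ | ⟨x, hx, rfl⟩
          · have := mem_range.mp (hD hx)
            omega
          · have := mem_range.mp (hD hx)
            omega
        have h3 := card_le_card h2
        rw [Int.card_Ico] at h3
        have h4 : |n| = max 0 n - min 0 n := by
          rcases abs_cases n with ⟨e, _⟩ | ⟨e, _⟩ <;> rw [e] <;> omega
        omega
      rw [not_disjoint_iff] at hnd
      obtain ⟨z, hz1, hz2⟩ := hnd
      rw [hD₁, mem_image] at hz1
      rw [hD₂, mem_image] at hz2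
      obtain ⟨x, hx, rfl⟩ := hz1
      obtain ⟨y, hy, hxy⟩ := hz2
      exact ⟨x, hx, x, hx, y, hy, x, hx, by omega⟩
  rcases hc with ⟨hc, hcρ⟩ | hc
  · obtain ⟨G, hG1, hG2, hG3⟩ := hH g hg D hD hne hc
    refine ⟨insert (1 / (M : ℝ)) (G.image fun γ : ℤ => (γ : ℝ) / ((M : ℝ) * g)), ?_, ?_, ?_⟩
    · have h1 : ((insert (1 / (M : ℝ)) (G.image fun γ : ℤ => (γ : ℝ) / ((M : ℝ) * g))).card : ℝ) ≤
          1 + C₁ * (1 + Real.log (g / D.card)) := by
        have h2 : (insert (1 / (M : ℝ)) (G.image fun γ : ℤ => (γ : ℝ) / ((M : ℝ) * g))).card ≤ G.card + 1 :=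
          (card_insert_le _ _).trans (Nat.add_le_add_right card_image_le 1)
        have h3 : ((insert (1 / (M : ℝ)) (G.image fun γ : ℤ => (γ : ℝ) / ((M : ℝ) * g))).card : ℝ) ≤ G.card + 1 := by
          exact_mod_cast h2
        linarith
      have h2 : Real.log (4 / 3) ≤ Real.log (g / D.card) := by
        apply Real.log_le_log (by norm_num)
        rw [div_le_div_iff₀ (by norm_num) hDpos]
        have : 4 * D.card ≤ 3 * g := by omega
        have : (4 : ℝ) * D.card ≤ 3 * g := by exact_mod_cast this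
        linarith
      calc _ ≤ 1 + C₁ * (1 + Real.log (g / D.card)) := h1
        _ = (1 + C₁) / Real.log (4 / 3) * Real.log (4 / 3) + C₁ * Real.log (g / D.card) := by
          rw [div_mul_cancel₀ _ hlog43.ne']
          ring
        _ ≤ (1 + C₁) / Real.log (4 / 3) * Real.log (g / D.card) + C₁ * Real.log (g / D.card) := by
          have := mul_le_mul_of_nonneg_left h2 (show 0 ≤ (1 + C₁) / Real.log (4 / 3) by positivity)
          linarith
        _ = ((1 + C₁) / Real.log (4 / 3) + C₁) * Real.log (g / D.card) := by ring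
        _ ≤ CC δ C₁ * Real.log (g / D.card) := by
          apply mul_le_mul_of_nonneg_right _ hlogD
          unfold CC
          have : 0 ≤ 3 / (δ * Real.log 2) := by positivity
          linarith
    · intro θ hθ
      rw [mem_insert, mem_image] at hθ
      rcases hθ with rfl | ⟨γ, _, rfl⟩
      · exact ⟨g, by push_cast; field_simp⟩
      · exact ⟨γ, by field_simp⟩
    · intro n r _ hn hr hcond
      have hr1 : |(r : ℝ) / M| ≤ 1 / 2 := by
        rw [abs_div, abs_of_pos hMpos, div_le_iff₀ hMpos]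
        have : (2 : ℝ) * |(r : ℝ)| ≤ M := by exact_mod_cast hr
        linarith
      have hr2 : |(r : ℝ) / M| ≤ ρ := by
        have h1 := hcond _ (mem_insert_self _ _)
        have h2 : 1 / (M : ℝ) * ((n : ℝ) * M + r) = (r : ℝ) / M + (n : ℤ) := by
          field_simp
          ring
        rw [h2, CB.nint_add_int] at h1
        exact (abs_le_nint _ hr1).trans h1
      apply hG3 n hn
      intro γ hγ
      have h1 := hcond _ (mem_insert_of_mem (mem_image_of_mem _ hγ))
      have h2 : (γ : ℝ) * n / g = (γ : ℝ) / ((M : ℝ) * g) * ((n : ℝ) * M + r) + -((γ : ℝ) / g * (r / M)) := by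
        field_simp
        ring
      have h3 : |(γ : ℝ) / g| ≤ 1 / 2 := by
        rw [abs_div, abs_of_pos hgpos, div_le_iff₀ hgpos]
        have : (2 : ℝ) * |(γ : ℝ)| ≤ g := by exact_mod_cast hG2 γ hγ
        linarith
      have h4 : |-((γ : ℝ) / g * (r / M))| ≤ 1 / 2 * ρ := by
        rw [abs_neg, abs_mul]
        exact mul_le_mul h3 hr2 (abs_nonneg _) (by norm_num)
      rw [h2]
      have h5 := GP.nint_add_le ((γ : ℝ) / ((M : ℝ) * g) * ((n : ℝ) * M + r)) (-((γ : ℝ) / g * (r / M)))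
      rw [le_div_iff₀ (by linarith)]
      have h6 : CB.nint ((γ : ℝ) / ((M : ℝ) * g) * ((n : ℝ) * M + r) + -((γ : ℝ) / g * (r / M))) ≤ 3 / 2 * ρ := by
        linarith
      exact (mul_le_mul_of_nonneg_right h6 (by linarith)).trans hcρ
  · have hglog : Real.log 2 ≤ Real.log g := Real.log_le_log (by norm_num) (by exact_mod_cast hg)
    obtain ⟨J, hJ⟩ : ∃ J : ℕ, J = ⌈Real.log g / Real.log 2⌉₊ := ⟨_, rfl⟩
    have hJ1 : (J : ℝ) < Real.log g / Real.log 2 + 1 := by
      rw [hJ]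
      exact Nat.ceil_lt_add_one (by positivity)
    have hJ2 : (g : ℝ) ≤ 2 ^ J := by
      have h1 : Real.log g / Real.log 2 ≤ J := by rw [hJ]; exact Nat.le_ceil _
      rw [div_le_iff₀ hlog2] at h1
      have h2 : Real.log g ≤ Real.log (2 ^ J) := by
        rw [Real.log_pow]; exact h1
      exact (Real.log_le_log_iff (by positivity) (by positivity)).mp h2
    refine ⟨(range (J + 1)).image fun j : ℕ => (2 : ℝ) ^ j / ((M : ℝ) * g), ?_, ?_, ?_⟩
    · have h1 : (((range (J + 1)).image fun j : ℕ => (2 : ℝ) ^ j / ((M : ℝ) * g)).card : ℝ) ≤ J + 1 := by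
        have : ((range (J + 1)).image fun j : ℕ => (2 : ℝ) ^ j / ((M : ℝ) * g)).card ≤ J + 1 :=
          card_image_le.trans (by rw [card_range])
        exact_mod_cast this
      have h2 : Real.log D.card ≤ (1 - δ) * Real.log g := by
        rw [← Real.log_rpow hgpos]
        exact Real.log_le_log hDpos hc
      have h3 : δ * Real.log g ≤ Real.log (g / D.card) := by
        rw [Real.log_div hgpos.ne' hDpos.ne']
        linarith
      have h4 : Real.log g ≤ Real.log (g / D.card) / δ := by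
        rw [le_div_iff₀ hδ]
        linarith
      have h5 : (1 : ℝ) ≤ Real.log g / Real.log 2 := by
        rw [le_div_iff₀ hlog2]
        linarith
      calc _ ≤ (J : ℝ) + 1 := h1
        _ ≤ 3 * (Real.log g / Real.log 2) := by linarith
        _ ≤ 3 * (Real.log (g / D.card) / δ / Real.log 2) := by
          apply mul_le_mul_of_nonneg_left _ (by norm_num)
          exact div_le_div_of_nonneg_right h4 hlog2.le
        _ = 3 / (δ * Real.log 2) * Real.log (g / D.card) := by field_simp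
        _ ≤ CC δ C₁ * Real.log (g / D.card) := by
          apply mul_le_mul_of_nonneg_right _ hlogD
          unfold CC
          have : 0 ≤ (1 + C₁) / Real.log (4 / 3) + C₁ := by positivity
          linarith
    · intro θ hθ
      rw [mem_image] at hθ
      obtain ⟨j, _, rfl⟩ := hθ
      exact ⟨2 ^ j, by push_cast; field_simp⟩
    · intro n r hy hn hr hcond
      have hy1 : |((n : ℝ) * M + r) / ((M : ℝ) * g)| ≤ 1 / 2 := by
        rw [abs_div, abs_of_pos (show (0 : ℝ) < (M : ℝ) * g by positivity), div_le_iff₀ (by positivity)]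
        have : (2 : ℝ) * |(n : ℝ) * M + r| ≤ M * g := by exact_mod_cast hy
        linarith
      have hd := doubling ρ (by linarith) _ hy1 J (fun j hj => by
        have h1 := hcond _ (mem_image_of_mem (fun j : ℕ => (2 : ℝ) ^ j / ((M : ℝ) * g))
          (show j ∈ range (J + 1) by rw [mem_range]; omega))
        have h2 : (2 : ℝ) ^ j * (((n : ℝ) * M + r) / ((M : ℝ) * g)) =
          (2 : ℝ) ^ j / ((M : ℝ) * g) * ((n : ℝ) * M + r) := by ring
        rw [h2]
        exact h1)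
      rw [abs_div, abs_of_pos (show (0 : ℝ) < (M : ℝ) * g by positivity)] at hd
      have h1 : |(n : ℝ) * M + r| ≤ ρ * M := by
        have h2 : (2 : ℝ) ^ J * (|(n : ℝ) * M + r| / ((M : ℝ) * g)) * (M * g) ≤ ρ * (M * g) :=
          mul_le_mul_of_nonneg_right hd (by positivity)
        have h3 : (2 : ℝ) ^ J * |(n : ℝ) * M + r| ≤ 2 ^ J * (ρ * M) := by
          calc (2 : ℝ) ^ J * |(n : ℝ) * M + r| = (2 : ℝ) ^ J * (|(n : ℝ) * M + r| / ((M : ℝ) * g)) * (M * g) := by
                field_simp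
            _ ≤ ρ * (M * g) := h2
            _ = g * (ρ * M) := by ring
            _ ≤ 2 ^ J * (ρ * M) := mul_le_mul_of_nonneg_right hJ2 (by positivity)
        exact le_of_mul_le_mul_left h3 (by positivity)
      have hn0 : n = 0 := by
        by_contra hcon
        have h2 : (1 : ℝ) ≤ |(n : ℝ)| := by exact_mod_cast Int.one_le_abs hcon
        have h3 : (2 : ℝ) * |(r : ℝ)| ≤ M := by exact_mod_cast hr
        have h4 : |(n : ℝ) * M| ≤ |(n : ℝ) * M + r| + |(r : ℝ)| := by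
          have h5 := abs_add_le ((n : ℝ) * M + r) (-(r : ℝ))
          rw [abs_neg, add_neg_cancel_right] at h5
          exact h5
        rw [abs_mul, abs_of_pos hMpos] at h4
        have h6 : 1 * (M : ℝ) ≤ |(n : ℝ)| * M := mul_le_mul_of_nonneg_right h2 hMpos.le
        have h7 : ρ * (M : ℝ) ≤ 1 / 16 * M := mul_le_mul_of_nonneg_right hρ hMpos.le
        linarith
      obtain ⟨a, ha⟩ := hne
      exact ⟨a, ha, a, ha, a, ha, a, ha, by rw [hn0]; ring⟩

/-- The place values. -/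
def MM (g : ℕ → ℕ) (p : ℕ) : ℕ := ∏ i ∈ range p, g i

lemma MM_succ (g : ℕ → ℕ) (p : ℕ) : MM g (p + 1) = MM g p * g p := by
  unfold MM
  rw [prod_range_succ]

lemma MM_dvd (g : ℕ → ℕ) {p q : ℕ} (h : p ≤ q) : MM g p ∣ MM g q := by
  unfold MM
  exact prod_dvd_prod_of_subset _ _ _ (range_subset_range.mpr h)

lemma MM_pos (g : ℕ → ℕ) (K : ℕ) (hg : ∀ i < K, 0 < g i) (p : ℕ) (hp : p ≤ K) : 0 < MM g p := by
  unfold MM
  exact prod_pos fun i hi => hg i (by rw [mem_range] at hi; omega)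

/-- The digits of an integer in a real Bohr set. -/
lemma repr (ρ : ℝ) (g : ℕ → ℕ) (D : ℕ → Finset ℕ) (K : ℕ) (hg : ∀ i < K, 0 < g i) (Θ : ℕ → Finset ℝ)
    (hint : ∀ p < K, ∀ θ ∈ Θ p, ∃ m : ℤ, θ * ((MM g p : ℝ) * g p) = m)
    (hdig : ∀ p < K, ∀ n r : ℤ, 2 * |n * MM g p + r| ≤ MM g p * g p → 2 * |n| ≤ g p → 2 * |r| ≤ MM g p →
      (∀ θ ∈ Θ p, CB.nint (θ * ((n : ℝ) * MM g p + r)) ≤ ρ) →
        ∃ a ∈ D p, ∃ b ∈ D p, ∃ c ∈ D p, ∃ d ∈ D p, n = (a : ℤ) + b - c - d) :
    ∀ p ≤ K, ∀ y : ℤ, 2 * |y| ≤ MM g p → (∀ q < p, ∀ θ ∈ Θ q, CB.nint (θ * y) ≤ ρ) →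
      ∃ a b c d : ℕ → ℕ, (∀ i < p, a i ∈ D i ∧ b i ∈ D i ∧ c i ∈ D i ∧ d i ∈ D i) ∧
        y = ∑ i ∈ range p, ((a i : ℤ) + b i - c i - d i) * MM g i := by
  intro p
  induction p with
  | zero =>
    intro _ y hy _
    refine ⟨fun _ => 0, fun _ => 0, fun _ => 0, fun _ => 0, fun i hi => absurd hi (by omega), ?_⟩
    have h1 : MM g 0 = 1 := by unfold MM; simp
    rw [h1] at hy
    rw [range_zero, sum_empty]
    have := abs_nonneg y
    have h2 : |y| = 0 := by omega
    exact abs_eq_zero.mp h2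
  | succ p ih =>
    intro hp y hy hcond
    have hMp := MM_pos g K hg p (by omega)
    rw [MM_succ] at hy
    obtain ⟨n, r, e1, e2, e3⟩ := split (MM g p) (g p) (by exact_mod_cast hMp) y (by exact_mod_cast hy)
    have e1' : (y : ℝ) = (n : ℝ) * MM g p + r := by rw [e1]; push_cast; ring
    obtain ⟨a₀, ha₀, b₀, hb₀, c₀, hc₀, d₀, hd₀, hn⟩ := hdig p (by omega) n r
      (by rw [← e1]; exact_mod_cast hy) e3 e2 (fun θ hθ => by
      rw [← e1']
      exact hcond p (by omega) θ hθ)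
    obtain ⟨a, b, c, d, hmem, hsum⟩ := ih (by omega) r e2 (fun q hq θ hθ => by
      obtain ⟨m, hm⟩ := hint q (by omega) θ hθ
      obtain ⟨k, hk⟩ := MM_dvd g (show q + 1 ≤ p by omega)
      rw [MM_succ] at hk
      have h1 : θ * y = θ * r + ((m * k * n : ℤ) : ℝ) := by
        rw [e1', hk]
        push_cast
        rw [← hm]
        ring
      have h2 := hcond q (by omega) θ hθ
      rw [h1, CB.nint_add_int] at h2
      exact h2)
    refine ⟨fun i => if i = p then a₀ else a i, fun i => if i = p then b₀ else b i,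
      fun i => if i = p then c₀ else c i, fun i => if i = p then d₀ else d i, ?_, ?_⟩
    · intro i hi
      by_cases h : i = p
      · subst h
        simp only [if_true]
        exact ⟨ha₀, hb₀, hc₀, hd₀⟩
      · simp only [if_neg h]
        exact hmem i (by omega)
    · rw [sum_range_succ]
      simp only [if_true]
      have h1 : ∑ x ∈ range p, (((if x = p then a₀ else a x : ℕ) : ℤ) + ((if x = p then b₀ else b x : ℕ) : ℤ) -
          ((if x = p then c₀ else c x : ℕ) : ℤ) - ((if x = p then d₀ else d x : ℕ) : ℤ)) * (MM g x : ℤ) =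
          ∑ i ∈ range p, ((a i : ℤ) + b i - c i - d i) * MM g i := by
        apply sum_congr rfl
        intro i hi
        have : i ≠ p := by rw [mem_range] at hi; omega
        simp only [if_neg this]
      rw [h1, ← hsum, ← hn, e1]
      ring

/-- The digit product set. -/
def digitSet (N K : ℕ) (g : ℕ → ℕ) (D : ℕ → Finset ℕ) : Set (ZMod N) :=
  {x | ∃ d : ℕ → ℕ, (∀ i < K, d i ∈ D i) ∧ x = ((∑ i ∈ range K, d i * ∏ j ∈ range i, g j : ℕ) : ZMod N)}

/-- The main theorem with a sum over the digits. -/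
theorem main (κ C₁ c₁ : ℝ) (hC₁ : 0 < C₁) (hH : DigitProp κ C₁ c₁) (ε : ℝ) (hε0 : 0 < ε) (hε : ε ≤ 1 / 24)
    (δ : ℝ) (hδ : 0 < δ) (N K : ℕ) (g : ℕ → ℕ) (D : ℕ → Finset ℕ) (hN : 0 < N)
    (hg2 : ∀ i < K, 2 ≤ g i) (hMN : ∏ i ∈ range K, g i ≤ N) (hD : ∀ i < K, D i ⊆ range (g i))
    (hne : ∀ i < K, (D i).Nonempty)
    (hc : ∀ i < K, (((D i + D i).card : ℝ) ≤ κ * (D i).card ∧
      9 / 4 * ε * (1 + Real.log (g i / (D i).card)) ≤ c₁) ∨ ((D i).card : ℝ) ≤ (g i : ℝ) ^ (1 - δ)) :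
    ∃ Γ : Finset (ZMod N),
      (Γ.card : ℝ) ≤ CC δ C₁ * ∑ i ∈ range K, Real.log (g i / (D i).card) +
        (2 + Real.log ((N : ℝ) / MM g K) / Real.log 2) ∧
      ∀ x : ZMod N, (∀ γ ∈ Γ, CB.nn (γ * x) ≤ ε) →
        ∃ p₁ ∈ digitSet N K g D, ∃ p₂ ∈ digitSet N K g D, ∃ p₃ ∈ digitSet N K g D, ∃ p₄ ∈ digitSet N K g D,
          x = p₁ + p₂ - p₃ - p₄ := by
  classical
  have : NeZero N := ⟨hN.ne'⟩
  have hg : ∀ i < K, 0 < g i := fun i hi => by have := hg2 i hi; omega
  have hNpos : (0 : ℝ) < N := by exact_mod_cast hN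
  have hMpos : 0 < MM g K := MM_pos g K hg K le_rfl
  have hMpos' : (0 : ℝ) < MM g K := by exact_mod_cast hMpos
  have hstep : ∀ p : ℕ, ∃ Θ : Finset ℝ, p < K →
      ((Θ.card : ℝ) ≤ CC δ C₁ * Real.log (g p / (D p).card) ∧
      (∀ θ ∈ Θ, ∃ m : ℤ, θ * ((MM g p : ℝ) * g p) = m) ∧
      ∀ n r : ℤ, 2 * |n * MM g p + r| ≤ MM g p * g p → 2 * |n| ≤ g p → 2 * |r| ≤ MM g p →
        (∀ θ ∈ Θ, CB.nint (θ * ((n : ℝ) * MM g p + r)) ≤ 3 / 2 * ε) →
        ∃ a ∈ D p, ∃ b ∈ D p, ∃ c ∈ D p, ∃ d ∈ D p, n = (a : ℤ) + b - c - d) := by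
    intro p
    by_cases hp : p < K
    · obtain ⟨Θ, h1, h2, h3⟩ := step κ C₁ c₁ hC₁ hH (3 / 2 * ε) (by linarith) (by linarith) (g p) (hg2 p hp) (D p)
        (hD p hp) δ hδ (hne p hp) (by
          rcases hc p hp with ⟨h1, h2⟩ | h1
          · exact Or.inl ⟨h1, by linarith⟩
          · exact Or.inr h1) (MM g p) (MM_pos g K hg p hp.le)
      exact ⟨Θ, fun _ => ⟨h1, h2, h3⟩⟩
    · exact ⟨∅, fun h => absurd h hp⟩
  choose Θ hΘ using hstep
  obtain ⟨J, hJ⟩ : ∃ J : ℕ, J = ⌈Real.log ((N : ℝ) / MM g K) / Real.log 2⌉₊ := ⟨_, rfl⟩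
  have hlog2 : 0 < Real.log 2 := Real.log_pos (by norm_num)
  have hratio : (1 : ℝ) ≤ (N : ℝ) / MM g K := by
    rw [le_div_iff₀ hMpos', one_mul]
    exact_mod_cast hMN
  have hlogr : 0 ≤ Real.log ((N : ℝ) / MM g K) := Real.log_nonneg hratio
  have hJ1 : (J : ℝ) < Real.log ((N : ℝ) / MM g K) / Real.log 2 + 1 := by
    rw [hJ]
    exact Nat.ceil_lt_add_one (by positivity)
  have hJ2 : (N : ℝ) ≤ 2 ^ J * MM g K := by
    have h1 : Real.log ((N : ℝ) / MM g K) / Real.log 2 ≤ J := by rw [hJ]; exact Nat.le_ceil _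
    rw [div_le_iff₀ hlog2] at h1
    have h2 : Real.log ((N : ℝ) / MM g K) ≤ Real.log (2 ^ J) := by
      rw [Real.log_pow]; exact h1
    have h3 := (Real.log_le_log_iff (by positivity) (by positivity)).mp h2
    rw [div_le_iff₀ hMpos'] at h3
    exact h3
  obtain ⟨Γ₁, hΓ₁⟩ : ∃ Γ₁ : Finset (ZMod N), Γ₁ = (range (J + 1)).image fun j => ((2 ^ j : ℕ) : ZMod N) := ⟨_, rfl⟩
  obtain ⟨T, hT⟩ : ∃ T : Finset ℝ, T = (range K).biUnion Θ := ⟨_, rfl⟩
  obtain ⟨Γ₂, hΓ₂⟩ : ∃ Γ₂ : Finset (ZMod N), Γ₂ = T.image fun θ : ℝ => ((round (θ * (N : ℝ)) : ℤ) : ZMod N) := ⟨_, rfl⟩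
  refine ⟨Γ₁ ∪ Γ₂, ?_, ?_⟩
  · have h1 : ((Γ₁ ∪ Γ₂).card : ℝ) ≤ Γ₁.card + Γ₂.card := by exact_mod_cast card_union_le _ _
    have h2 : (Γ₁.card : ℝ) ≤ J + 1 := by
      have : Γ₁.card ≤ J + 1 := by
        rw [hΓ₁]
        exact card_image_le.trans (by rw [card_range])
      exact_mod_cast this
    have h3 : (Γ₂.card : ℝ) ≤ T.card := by
      have : Γ₂.card ≤ T.card := by rw [hΓ₂]; exact card_image_le
      exact_mod_cast this
    have h4 : (T.card : ℝ) ≤ ∑ p ∈ range K, ((Θ p).card : ℝ) := by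
      have : T.card ≤ ∑ p ∈ range K, (Θ p).card := by rw [hT]; exact card_biUnion_le
      exact_mod_cast this
    have h5 : ∑ p ∈ range K, ((Θ p).card : ℝ) ≤
        CC δ C₁ * ∑ i ∈ range K, Real.log (g i / (D i).card) := by
      rw [mul_sum]
      exact sum_le_sum fun p hp => (hΘ p (mem_range.mp hp)).1
    linarith
  · intro x hx
    obtain ⟨y, hy⟩ : ∃ y : ℤ, y = x.valMinAbs := ⟨_, rfl⟩
    have hyx : (y : ZMod N) = x := by rw [hy, ZMod.coe_valMinAbs]
    have hy2 : 2 * |y| ≤ N := by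
      have := ZMod.natAbs_valMinAbs_le x
      rw [hy, Int.abs_eq_natAbs]
      omega
    have hy3 : |(y : ℝ) / N| ≤ 1 / 2 := by
      rw [abs_div, abs_of_pos hNpos, div_le_iff₀ hNpos]
      have : (2 : ℝ) * |(y : ℝ)| ≤ N := by exact_mod_cast hy2
      linarith
    have hdoub := doubling ε (by linarith) ((y : ℝ) / N) hy3 J (fun j hj => by
      have h1 := hx ((2 ^ j : ℕ) : ZMod N) (mem_union_left _ (by
        rw [hΓ₁, mem_image]
        exact ⟨j, by rw [mem_range]; omega, rfl⟩))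
      have h2 : CB.nint (((2 ^ j * y : ℤ) : ℝ) / N) = CB.nn (((2 ^ j : ℕ) : ZMod N) * x) := by
        apply CB.nint_eq_nn
        push_cast
        rw [hyx]
      rw [← h2] at h1
      have h3 : (((2 ^ j * y : ℤ) : ℝ) / N) = 2 ^ j * ((y : ℝ) / N) := by
        push_cast
        ring
      rw [h3] at h1
      exact h1)
    have hsmall : |(y : ℝ) / N| ≤ ε := by
      have h1 : (1 : ℝ) ≤ 2 ^ J := one_le_pow₀ (by norm_num)
      have h2 : 1 * |(y : ℝ) / N| ≤ 2 ^ J * |(y : ℝ) / N| := mul_le_mul_of_nonneg_right h1 (abs_nonneg _)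
      linarith
    have hyM : 2 * |y| ≤ MM g K := by
      have h1 : |(y : ℝ) / N| = |(y : ℝ)| / N := by rw [abs_div, abs_of_pos hNpos]
      rw [h1] at hdoub
      have h2 : (2 : ℝ) ^ J * |(y : ℝ)| ≤ ε * N := by
        have : (2 : ℝ) ^ J * (|(y : ℝ)| / N) * N ≤ ε * N := mul_le_mul_of_nonneg_right hdoub hNpos.le
        calc (2 : ℝ) ^ J * |(y : ℝ)| = (2 : ℝ) ^ J * (|(y : ℝ)| / N) * N := by field_simp
          _ ≤ _ := this
      have h3 : (2 : ℝ) ^ J * (2 * |(y : ℝ)|) ≤ 2 ^ J * MM g K := by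
        have h3' : (0 : ℝ) < 2 ^ J * MM g K := by positivity
        have h3'' : ε * N ≤ 1 / 24 * N := mul_le_mul_of_nonneg_right hε hNpos.le
        linarith
      have h4 := le_of_mul_le_mul_left h3 (by positivity)
      exact_mod_cast h4
    obtain ⟨a, b, c, d, hmem, hsum⟩ := repr (3 / 2 * ε) g D K hg Θ (fun p hp => (hΘ p hp).2.1) (fun p hp => (hΘ p hp).2.2) K le_rfl y
      hyM (fun q hq θ hθ => by
        have h1 := hx ((round (θ * N) : ℤ) : ZMod N) (mem_union_right _ (by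
          rw [hΓ₂, mem_image]
          exact ⟨θ, by rw [hT, mem_biUnion]; exact ⟨q, mem_range.mpr hq, hθ⟩, rfl⟩))
        have h2 : CB.nint (((round (θ * N) * y : ℤ) : ℝ) / N) = CB.nn (((round (θ * N) : ℤ) : ZMod N) * x) := by
          apply CB.nint_eq_nn
          rw [Int.cast_mul, hyx]
        rw [← h2] at h1
        have h3 : θ * y = ((round (θ * N) * y : ℤ) : ℝ) / N + (θ * N - round (θ * N)) * ((y : ℝ) / N) := by
          push_cast
          field_simp
          ring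
        have h4 : |(θ * N - round (θ * N)) * ((y : ℝ) / N)| ≤ 1 / 2 * ε := by
          rw [abs_mul]
          exact mul_le_mul (abs_sub_round _) hsmall (abs_nonneg _) (by norm_num)
        rw [h3]
        have h5 := GP.nint_add_le (((round (θ * N) * y : ℤ) : ℝ) / N) ((θ * N - round (θ * N)) * ((y : ℝ) / N))
        linarith)
    refine ⟨_, ⟨a, fun i hi => (hmem i hi).1, rfl⟩, _, ⟨b, fun i hi => (hmem i hi).2.1, rfl⟩,
      _, ⟨c, fun i hi => (hmem i hi).2.2.1, rfl⟩, _, ⟨d, fun i hi => (hmem i hi).2.2.2, rfl⟩, ?_⟩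
    rw [← hyx, hsum]
    push_cast
    rw [← sum_add_distrib, ← sum_sub_distrib, ← sum_sub_distrib]
    apply sum_congr rfl
    intro i _
    unfold MM
    push_cast
    ring

end Pool.Agent.Q47.DP2
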